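import Pool.Agent.AGU.Stmts

set_option autoImplicit false

open scoped BigOperators Matrix

namespace Pool.Agent.AGU.H99

open Pool.Agent.AGU

lemma part1 (X : Type) [Fintype X] [DecidableEq X] (G : Matrix X X ℂ) (k : X → ℝ) (h : WK G k)
    (a : X) : ∑ b, k b * ‖G a b‖ ^ 2 = (G a a).im := by
  have h1 := h.hw a a
  have h2 : ∑ c, (k c : ℂ) * (starRingEnd ℂ) (G a c) * G c a =
      ((∑ c, k c * ‖G a c‖ ^ 2 : ℝ) : ℂ) := by
    push_cast
    refine Finset.sum_congr rfl fun c _ => ?_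
    rw [h.hs c a, mul_assoc, Complex.conj_mul']
  rw [h2] at h1
  exact_mod_cast h1

lemma part2 (X : Type) [Fintype X] [DecidableEq X] (G : Matrix X X ℂ) (k : X → ℝ) (h : WK G k)
    (u : X → ℂ) : ∑ a, k a * ‖∑ b, G a b * u b‖ ^ 2 ≤ ∑ b, ‖u b‖ ^ 2 / k b := by
  set v : X → ℂ := fun a => ∑ b, G a b * u b with hv
  set T : ℂ := ∑ b, (starRingEnd ℂ) (u b) * v b with hT
  have hS : ((∑ a, k a * ‖v a‖ ^ 2 : ℝ) : ℂ) =
      ∑ b, ∑ c, (starRingEnd ℂ) (u b) * u c * ((G b c).im : ℂ) := by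
    have h1 : ∀ a, ((k a * ‖v a‖ ^ 2 : ℝ) : ℂ) = ∑ b, ∑ c, (starRingEnd ℂ) (u b) * u c *
        ((k a : ℂ) * (starRingEnd ℂ) (G b a) * G a c) := by
      intro a
      push_cast
      rw [← Complex.conj_mul', hv]
      simp only [map_sum, map_mul]
      rw [Finset.sum_mul, Finset.mul_sum]
      refine Finset.sum_congr rfl fun b _ => ?_
      rw [Finset.mul_sum, Finset.mul_sum]
      refine Finset.sum_congr rfl fun c _ => ?_
      rw [h.hs b a]
      ring
    rw [Complex.ofReal_sum, Finset.sum_congr rfl fun a _ => h1 a, Finset.sum_comm]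
    refine Finset.sum_congr rfl fun b _ => ?_
    rw [Finset.sum_comm]
    refine Finset.sum_congr rfl fun c _ => ?_
    rw [← Finset.mul_sum, h.hw]
  have hT2 : T = ∑ b, ∑ c, (starRingEnd ℂ) (u b) * u c * G b c := by
    rw [hT]
    refine Finset.sum_congr rfl fun b _ => ?_
    rw [hv, Finset.mul_sum]
    refine Finset.sum_congr rfl fun c _ => ?_
    ring
  have hT3 : (starRingEnd ℂ) T = ∑ b, ∑ c, (starRingEnd ℂ) (u b) * u c *
      (starRingEnd ℂ) (G b c) := by
    rw [hT2]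
    simp only [map_sum, map_mul, Complex.conj_conj]
    rw [Finset.sum_comm]
    refine Finset.sum_congr rfl fun b _ => Finset.sum_congr rfl fun c _ => ?_
    rw [h.hs c b]
    ring
  have hIm : ∑ a, k a * ‖v a‖ ^ 2 = T.im := by
    have h1 : T - (starRingEnd ℂ) T = 2 * Complex.I * ((∑ a, k a * ‖v a‖ ^ 2 : ℝ) : ℂ) := by
      rw [hS, hT3, hT2, ← Finset.sum_sub_distrib, Finset.mul_sum]
      refine Finset.sum_congr rfl fun b _ => ?_
      rw [← Finset.sum_sub_distrib, Finset.mul_sum]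
      refine Finset.sum_congr rfl fun c _ => ?_
      rw [← mul_sub, Complex.sub_conj]
      push_cast
      ring
    have h2 := Complex.sub_conj T
    rw [h2] at h1
    generalize ∑ a, k a * ‖v a‖ ^ 2 = S at h1 ⊢
    have h3 := congrArg Complex.im h1
    simp at h3
    linarith
  have hle : T.im ≤ ∑ b, (‖u b‖ ^ 2 / k b + k b * ‖v b‖ ^ 2) / 2 := by
    refine (Complex.im_le_norm T).trans ?_
    rw [hT]
    refine (norm_sum_le _ _).trans (Finset.sum_le_sum fun b _ => ?_)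
    rw [norm_mul, RCLike.norm_conj]
    have hk := h.hk b
    have h1 : 0 ≤ (‖u b‖ - k b * ‖v b‖) ^ 2 / k b := by positivity
    have h2 : (‖u b‖ - k b * ‖v b‖) ^ 2 / k b =
        ‖u b‖ ^ 2 / k b + k b * ‖v b‖ ^ 2 - 2 * (‖u b‖ * ‖v b‖) := by
      field_simp
      ring
    rw [h2] at h1
    linarith
  have h5 : ∑ b, (‖u b‖ ^ 2 / k b + k b * ‖v b‖ ^ 2) / 2 =
      (∑ b, ‖u b‖ ^ 2 / k b + ∑ b, k b * ‖v b‖ ^ 2) / 2 := by
    rw [← Finset.sum_add_distrib, Finset.sum_div]
  rw [h5, ← hIm] at hle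
  linarith

theorem gwb : GwbStmt := by
  intro X _ _ G k h
  refine ⟨part1 X G k h, part2 X G k h, ?_, ?_⟩
  · intro a b
    have h1 := part2 X G k h (fun c => if c = b then 1 else 0)
    have h2 : ∀ a, ∑ c, G a c * (if c = b then (1 : ℂ) else 0) = G a b := by
      intro a
      simp
    have h3 : ∑ c, ‖(if c = b then (1 : ℂ) else 0)‖ ^ 2 / k c = 1 / k b := by
      rw [Finset.sum_eq_single b]
      · simp
      · intro c _ hc
        simp [hc]
      · intro hb
        exact absurd (Finset.mem_univ b) hb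
    simp only [h2] at h1
    rw [h3] at h1
    have h4 : k a * ‖G a b‖ ^ 2 ≤ ∑ a, k a * ‖G a b‖ ^ 2 :=
      Finset.single_le_sum (f := fun a => k a * ‖G a b‖ ^ 2)
        (fun c _ => mul_nonneg (h.hk c).le (sq_nonneg _)) (Finset.mem_univ a)
    have h5 := h4.trans h1
    have hk := h.hk b
    rw [le_div_iff₀ hk] at h5
    linarith
  · intro a b z d hd hz
    have h1 : ‖∑ c, G a c * z c * G c b‖ ≤
        ∑ c, d * ((Real.sqrt (k c) * ‖G a c‖) * (Real.sqrt (k c) * ‖G c b‖)) := by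
      refine (norm_sum_le _ _).trans (Finset.sum_le_sum fun c _ => ?_)
      rw [norm_mul, norm_mul]
      have h2 : Real.sqrt (k c) * Real.sqrt (k c) = k c := Real.mul_self_sqrt (h.hk c).le
      have h3 := hz c
      have h4 : d * ((Real.sqrt (k c) * ‖G a c‖) * (Real.sqrt (k c) * ‖G c b‖)) =
          (d * k c) * (‖G a c‖ * ‖G c b‖) := by
        calc _ = d * (Real.sqrt (k c) * Real.sqrt (k c)) * (‖G a c‖ * ‖G c b‖) := by ring
          _ = _ := by rw [h2]
      rw [h4]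
      have h5 : ‖G a c‖ * ‖z c‖ * ‖G c b‖ = ‖z c‖ * (‖G a c‖ * ‖G c b‖) := by ring
      rw [h5]
      exact mul_le_mul_of_nonneg_right h3 (by positivity)
    refine h1.trans ?_
    rw [← Finset.mul_sum]
    refine mul_le_mul_of_nonneg_left ?_ hd
    refine (Real.sum_mul_le_sqrt_mul_sqrt Finset.univ _ _).trans ?_
    have e1 : ∑ c, (Real.sqrt (k c) * ‖G a c‖) ^ 2 = (G a a).im := by
      rw [← part1 X G k h a]
      refine Finset.sum_congr rfl fun c _ => ?_
      rw [mul_pow, Real.sq_sqrt (h.hk c).le]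
    have e2 : ∑ c, (Real.sqrt (k c) * ‖G c b‖) ^ 2 = (G b b).im := by
      rw [← part1 X G k h b]
      refine Finset.sum_congr rfl fun c _ => ?_
      rw [mul_pow, Real.sq_sqrt (h.hk c).le, h.hs c b]
    rw [e1, e2, Real.sqrt_mul]
    rw [← e1]
    exact Finset.sum_nonneg fun c _ => sq_nonneg _

end Pool.Agent.AGU.H99
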